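import Pool.Agent.Helper509.SD.Main

set_option autoImplicit false

open Filter Topology Set

namespace Pool.Agent.Helper509.SD

variable {𝕜 : Type*} [RCLike 𝕜] {X : Type*} [NormedAddCommGroup X] [NormedSpace 𝕜 X]
variable {ι : Type*}

/-- Compact operators are continuous from the weak to the norm topology on bounded sets. -/
lemma exists_orbit_near [Fintype ι] (G : Subgroup (X →L[𝕜] X)ˣ) {C : ℝ}
    (hC : ∀ g ∈ G, ‖(g : X →L[𝕜] X)‖ ≤ C) (x v : ι → X)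
    (hv : (j v : P 𝕜 X ι) ∈ closure (orb G x)) {F : X →L[𝕜] X} (hF : IsCompactOperator F)
    {δ : ℝ} (hδ : 0 < δ) :
    ∃ h ∈ G, ∀ i, ‖F ((h : X →L[𝕜] X) (x i)) - F (v i)‖ < δ := by
  classical
  by_contra hcon
  push Not at hcon
  have hC0 : 0 ≤ C := (norm_nonneg _).trans (hC 1 (one_mem G))
  set R : ℝ := C * ∑ i, ‖x i‖ with hR
  set K : Set X := closure (F '' Metric.closedBall 0 R) with hK
  have hKc : IsCompact K := hF.isCompact_closure_image_closedBall R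
  have hmem : ∀ h ∈ G, ∀ i, F ((h : X →L[𝕜] X) (x i)) ∈ K := by
    intro h hh i
    refine subset_closure ⟨_, ?_, rfl⟩
    rw [mem_closedBall_zero_iff]
    refine ((h : X →L[𝕜] X).le_opNorm (x i)).trans ?_
    have h1 : ‖x i‖ ≤ ∑ i, ‖x i‖ :=
      Finset.single_le_sum (f := fun i => ‖x i‖) (fun _ _ => norm_nonneg _) (Finset.mem_univ i)
    exact mul_le_mul (hC h hh) h1 (norm_nonneg _) hC0
  set N : Set (ι → X) := (Set.univ.pi fun _ => K) ∩ {w | ∃ i, δ ≤ ‖w i - F (v i)‖} with hN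
  have hNc : IsCompact N := by
    refine (isCompact_univ_pi fun _ => hKc).inter_right ?_
    have h1 : {w : ι → X | ∃ i, δ ≤ ‖w i - F (v i)‖} = ⋃ i, {w : ι → X | δ ≤ ‖w i - F (v i)‖} := by
      ext w; simp
    rw [h1]
    refine isClosed_iUnion_of_finite fun i => ?_
    exact isClosed_le continuous_const (((continuous_apply i).sub continuous_const).norm)
  have hcl : IsClosed (j '' N : Set (P 𝕜 X ι)) := (hNc.image continuous_j).isClosed
  have h1 : MapsTo (act F) (orb G x) (j '' N : Set (P 𝕜 X ι)) := by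
    rintro _ ⟨h, hh, rfl⟩
    obtain ⟨i, hi⟩ := hcon h hh
    exact ⟨fun i => F ((h : X →L[𝕜] X) (x i)), ⟨fun i _ => hmem h hh i, ⟨i, hi⟩⟩, rfl⟩
  have h2 : act F (j v : P 𝕜 X ι) ∈ (j '' N : Set (P 𝕜 X ι)) := by
    have := h1.closure (continuous_act F) hv
    rwa [hcl.closure_eq] at this
  obtain ⟨w, ⟨_, i, hi⟩, hw2⟩ := h2
  have h3 : w = fun i => F (v i) := j_inj hw2
  rw [h3, sub_self, norm_zero] at hi
  linarith

/-- countable infinite subgroups -/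
lemma exists_countable_subgroup {Γ : Type*} [Group Γ] (G : Subgroup Γ)
    (hG : (G : Set Γ).Infinite) :
    ∃ H : Subgroup Γ, H ≤ G ∧ (H : Set Γ).Countable ∧ (H : Set Γ).Infinite := by
  classical
  obtain ⟨s, hs, hsc, hsi⟩ : ∃ s ⊆ (G : Set Γ), s.Countable ∧ s.Infinite := by
    have := hG.to_subtype
    obtain ⟨f⟩ : Nonempty (ℕ ↪ G) := ⟨Infinite.natEmbedding G⟩
    refine ⟨Set.range fun n => (f n : Γ), ?_, countable_range _, ?_⟩
    · rintro _ ⟨n, rfl⟩; exact (f n).2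
    · exact infinite_range_of_injective (Subtype.val_injective.comp f.injective)
  refine ⟨Subgroup.closure s, (Subgroup.closure_le G).2 hs, ?_, hsi.mono Subgroup.subset_closure⟩
  rw [FreeGroup.closure_eq_range, MonoidHom.coe_range]
  have := hsc.to_subtype
  have h1 : Countable (FreeGroup s) := by
    have h2 : Function.Surjective (FreeGroup.mk : List (s × Bool) → FreeGroup s) :=
      fun x => ⟨x.toWord, FreeGroup.mk_toWord⟩
    exact h2.countable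
  exact countable_range _

/-- A bounded infinite group of invertible operators on a reflexive space, each of whose elements is
a compact perturbation of a scalar of modulus one, has non-trivial elements as close to the identity
as we like in the strong operator topology. -/
theorem exists_near_one
    (hr : ∀ φ : (X →L[𝕜] 𝕜) →L[𝕜] 𝕜, ∃ x : X, ∀ f : X →L[𝕜] 𝕜, φ f = f x)
    (G : Subgroup (X →L[𝕜] X)ˣ) (hG : (G : Set (X →L[𝕜] X)ˣ).Infinite)
    {C : ℝ} (hC : ∀ g ∈ G, ‖(g : X →L[𝕜] X)‖ ≤ C)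
    (hF : ∀ g ∈ G, ∃ ε : 𝕜, ‖ε‖ = 1 ∧ IsCompactOperator ((g : X →L[𝕜] X) - ε • (1 : X →L[𝕜] X)))
    (s : Finset X) {δ : ℝ} (hδ : 0 < δ) :
    ∃ g ∈ G, g ≠ 1 ∧ ∀ x ∈ s, ‖(g : X →L[𝕜] X) x - x‖ < δ := by
  classical
  obtain ⟨H, hHG, hHc, hHi⟩ := exists_countable_subgroup G hG
  have hC0 : 0 ≤ C := (norm_nonneg _).trans (hC 1 (one_mem G))
  have hCH : ∀ g ∈ H, ‖(g : X →L[𝕜] X)‖ ≤ C := fun g hg => hC g (hHG hg)
  let x : s → X := fun i => i.1
  obtain ⟨R, hR0, hR⟩ : ∃ R, 0 ≤ R ∧ ∀ i, ‖x i‖ ≤ R :=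
    ⟨∑ i, ‖x i‖, Finset.sum_nonneg fun _ _ => norm_nonneg _, fun i =>
      Finset.single_le_sum (f := fun i => ‖x i‖) (fun _ _ => norm_nonneg _) (Finset.mem_univ i)⟩
  -- `e` is a small number
  obtain ⟨e, he0, he⟩ : ∃ e : ℝ, 0 < e ∧ C * (2 * (e * (C * R)) + e + e) < δ := by
    have h1 : Tendsto (fun e : ℝ => C * (2 * (e * (C * R)) + e + e)) (𝓝[>] 0) (𝓝 0) := by
      have h2 : Continuous fun e : ℝ => C * (2 * (e * (C * R)) + e + e) := by fun_prop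
      have h3 := h2.tendsto 0
      simp only [mul_zero, zero_mul, add_zero] at h3
      exact h3.mono_left nhdsWithin_le_nhds
    obtain ⟨e, h2, h3⟩ := ((h1.eventually (gt_mem_nhds hδ)).and self_mem_nhdsWithin).exists
    exact ⟨e, h3, h2⟩
  obtain ⟨v, hv, hpig⟩ := main_countable hr H hHc hHi hCH x he0
  choose ε hε1 hεc using hF
  -- colour the group by the scalars
  obtain ⟨t, htf, ht⟩ := Metric.totallyBounded_iff.1
    (isCompact_sphere (0 : 𝕜) 1).totallyBounded (e / 2) (half_pos he0)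
  have hcol : ∀ g : H, ∃ z : t, ‖ε g.1 (hHG g.2) - z.1‖ < e / 2 := by
    intro g
    have h1 : ε g.1 (hHG g.2) ∈ Metric.sphere (0 : 𝕜) 1 := by simp [hε1]
    obtain ⟨z, hz, h2⟩ := mem_iUnion₂.1 (ht h1)
    rw [Metric.mem_ball, dist_eq_norm] at h2
    exact ⟨⟨z, hz⟩, h2⟩
  choose col hcol using hcol
  have := htf.to_subtype
  have := Fintype.ofFinite t
  obtain ⟨k₁, k₂, hne, hc, hk⟩ := hpig (Fintype.card t) fun g => Fintype.equivFin t (col g)
  have hc' : col k₁ = col k₂ := (Fintype.equivFin t).injective hc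
  have hee : ‖ε k₁.1 (hHG k₁.2) - ε k₂.1 (hHG k₂.2)‖ < e := by
    have h1 := hcol k₁
    have h2 := hcol k₂
    rw [hc'] at h1
    calc _ = ‖(ε k₁.1 (hHG k₁.2) - (col k₂).1) - (ε k₂.1 (hHG k₂.2) - (col k₂).1)‖ := by
          congr 1; ring
      _ ≤ _ := norm_sub_le _ _
      _ < e := by linarith
  -- `k = k₁⁻¹ k₂`
  set D : X →L[𝕜] X := (k₁.1 : X →L[𝕜] X) - (k₂.1 : X →L[𝕜] X) with hD
  set c : 𝕜 := ε k₁.1 (hHG k₁.2) - ε k₂.1 (hHG k₂.2) with hcdef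
  have hDc : IsCompactOperator (D - c • (1 : X →L[𝕜] X)) := by
    have h1 := (hεc k₁.1 (hHG k₁.2)).sub (hεc k₂.1 (hHG k₂.2))
    have h2 : D - c • (1 : X →L[𝕜] X) = ((k₁.1 : X →L[𝕜] X) - ε k₁.1 (hHG k₁.2) • 1) -
        ((k₂.1 : X →L[𝕜] X) - ε k₂.1 (hHG k₂.2) • 1) := by
      rw [hD, hcdef, sub_smul]; abel
    rw [h2]
    exact h1
  obtain ⟨h, hh, hnear⟩ := exists_orbit_near H hCH x v hv hDc (mul_pos he0 one_pos)
  refine ⟨h⁻¹ * (k₂.1⁻¹ * k₁.1) * h, hHG (mul_mem (mul_mem (inv_mem hh)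
    (mul_mem (inv_mem k₂.2) k₁.2)) hh), ?_, ?_⟩
  · intro h1
    apply hne
    have h2 : k₂.1⁻¹ * k₁.1 = 1 := by
      calc k₂.1⁻¹ * k₁.1 = h * (h⁻¹ * (k₂.1⁻¹ * k₁.1) * h) * h⁻¹ := by group
        _ = 1 := by rw [h1]; group
    exact Subtype.ext (inv_mul_eq_one.1 h2).symm
  · intro y hy
    set i : s := ⟨y, hy⟩ with hi
    have hxi : x i = y := rfl
    -- `(k₁ - k₂) h x` is small
    have hvR : ‖v i‖ ≤ C * R := by
      refine NormedSpace.norm_le_dual_bound 𝕜 (v i) (by positivity) fun f => ?_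
      have h1 : IsClosed {φ : P 𝕜 X s | ‖φ i f‖ ≤ C * R * ‖f‖} :=
        isClosed_le ((continuous_apply f).comp (continuous_apply i)).norm continuous_const
      have h2 : orb H x ⊆ {φ : P 𝕜 X s | ‖φ i f‖ ≤ C * R * ‖f‖} := by
        rintro _ ⟨g, hg, rfl⟩
        show ‖f ((g : X →L[𝕜] X) (x i))‖ ≤ _
        have h3 := f.le_opNorm ((g : X →L[𝕜] X) (x i))
        have h4 := (g : X →L[𝕜] X).le_opNorm (x i)
        have h5 : ‖(g : X →L[𝕜] X)‖ * ‖x i‖ ≤ C * R :=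
          mul_le_mul (hCH g hg) (hR i) (norm_nonneg _) hC0
        calc ‖f ((g : X →L[𝕜] X) (x i))‖ ≤ ‖f‖ * ‖(g : X →L[𝕜] X) (x i)‖ := h3
          _ ≤ ‖f‖ * (C * R) := by gcongr; exact h4.trans h5
          _ = C * R * ‖f‖ := by ring
      exact closure_minimal h2 h1 hv
    have h1 : ‖D ((h : X →L[𝕜] X) (x i))‖ ≤ 2 * (e * (C * R)) + e + e := by
      have h2 : D ((h : X →L[𝕜] X) (x i)) =
          ((D - c • (1 : X →L[𝕜] X)) ((h : X →L[𝕜] X) (x i)) - (D - c • (1 : X →L[𝕜] X)) (v i)) +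
          (c • ((h : X →L[𝕜] X) (x i)) + (D (v i) - c • v i)) := by
        simp only [sub_apply, smul_apply,
          one_apply_eq_self]
        abel
      have h3 := hnear i
      rw [mul_one] at h3
      have h4 : ‖D (v i)‖ ≤ e := hk i
      have h5 : ‖c • v i‖ ≤ e * (C * R) := by
        rw [norm_smul]
        exact mul_le_mul hee.le hvR (norm_nonneg _) he0.le
      have h6 : ‖c • ((h : X →L[𝕜] X) (x i))‖ ≤ e * (C * R) := by
        rw [norm_smul]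
        refine mul_le_mul hee.le ?_ (norm_nonneg _) he0.le
        exact ((h : X →L[𝕜] X).le_opNorm (x i)).trans
          (mul_le_mul (hCH h hh) (hR i) (norm_nonneg _) hC0)
      rw [h2]
      have h7 := norm_add_le ((D - c • (1 : X →L[𝕜] X)) ((h : X →L[𝕜] X) (x i)) -
        (D - c • (1 : X →L[𝕜] X)) (v i)) (c • ((h : X →L[𝕜] X) (x i)) + (D (v i) - c • v i))
      have h8 := norm_add_le (c • ((h : X →L[𝕜] X) (x i))) (D (v i) - c • v i)
      have h9 := norm_sub_le (D (v i)) (c • v i)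
      linarith
    have h2 : ((h⁻¹ * (k₂.1⁻¹ * k₁.1) * h : (X →L[𝕜] X)ˣ) : X →L[𝕜] X) y - y =
        ((h⁻¹ * k₂.1⁻¹ : (X →L[𝕜] X)ˣ) : X →L[𝕜] X) (D ((h : X →L[𝕜] X) (x i))) := by
      have h3 : ((h⁻¹ * k₂.1⁻¹ : (X →L[𝕜] X)ˣ) : X →L[𝕜] X) * D * (h : X →L[𝕜] X) =
          ((h⁻¹ * (k₂.1⁻¹ * k₁.1) * h : (X →L[𝕜] X)ˣ) : X →L[𝕜] X) - 1 := by
        have h4 : ((h⁻¹ * k₂.1⁻¹ : (X →L[𝕜] X)ˣ) : X →L[𝕜] X) * (k₂.1 : X →L[𝕜] X) *
            (h : X →L[𝕜] X) = 1 := by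
          rw [← Units.val_mul, ← Units.val_mul]
          have : h⁻¹ * k₂.1⁻¹ * k₂.1 * h = 1 := by group
          rw [this, Units.val_one]
        have h5 : h⁻¹ * k₂.1⁻¹ * k₁.1 * h = h⁻¹ * (k₂.1⁻¹ * k₁.1) * h := by group
        rw [hD, mul_sub, sub_mul, h4, ← Units.val_mul, ← Units.val_mul, h5]
      have h5 := DFunLike.congr_fun h3 y
      exact h5.symm
    rw [h2]
    have hgm : h⁻¹ * k₂.1⁻¹ ∈ H := mul_mem (inv_mem hh) (inv_mem k₂.2)
    refine (ContinuousLinearMap.le_opNorm _ _).trans_lt ?_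
    have h3 : ‖((h⁻¹ * k₂.1⁻¹ : (X →L[𝕜] X)ˣ) : X →L[𝕜] X)‖ * ‖D ((h : X →L[𝕜] X) (x i))‖ ≤
        C * (2 * (e * (C * R)) + e + e) := mul_le_mul (hCH _ hgm) h1 (norm_nonneg _) hC0
    exact h3.trans_lt he

end Pool.Agent.Helper509.SD
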