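import Mathlib

/-! Bounded groups of compact perturbations of scalars on a reflexive space are never discrete in
the strong operator topology, unless they are finite.

Proof. Let `G` be such a group, infinite, `x = (x_i)` finitely many vectors. Passing to a subgroup,
`G` is countable. In the weak topology of `X^ι` the closure of the orbit of `x` is compact; let `M`
be a minimal nonempty closed invariant subset. By Baire's theorem and minimality `M` is covered by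
finitely many sets of small norm diameter, so for `v ∈ M` there is `1 ≠ k ∈ G` with `k v ≈ v`.
As `v` is in the weak closure of `G x` and `k - ε` is compact, there is `h ∈ G` with
`(k - 1) h x ≈ (k - 1) v ≈ 0`, and then `h⁻¹ k h x ≈ x`. -/

set_option autoImplicit false

open Filter Topology Set

namespace Pool.Agent.Helper509.SD

variable {𝕜 : Type*} [RCLike 𝕜] {X : Type*} [NormedAddCommGroup X] [NormedSpace 𝕜 X]
variable {ι : Type*}

/-- the ambient product space, carrying the weak topology -/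
abbrev P (𝕜 X ι : Type*) [RCLike 𝕜] [NormedAddCommGroup X] [NormedSpace 𝕜 X] :=
  ι → (X →L[𝕜] 𝕜) → 𝕜

/-- the embedding -/
def j (v : ι → X) : P 𝕜 X ι := fun i f => f (v i)

lemma j_inj {v w : ι → X} (h : (j v : P 𝕜 X ι) = j w) : v = w := by
  funext i
  have h1 : ∀ f : X →L[𝕜] 𝕜, f (v i) = f (w i) := fun f => congrFun (congrFun h i) f
  exact NormedSpace.eq_iff_forall_dual_eq 𝕜 |>.2 h1

lemma continuous_j : Continuous (j : (ι → X) → P 𝕜 X ι) := by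
  refine continuous_pi fun i => continuous_pi fun f => ?_
  exact f.continuous.comp (continuous_apply i)

/-- the action of operators -/
def act (g : X →L[𝕜] X) (φ : P 𝕜 X ι) : P 𝕜 X ι := fun i f => φ i (f.comp g)

lemma act_j (g : X →L[𝕜] X) (v : ι → X) : act g (j v : P 𝕜 X ι) = j fun i => g (v i) := rfl

lemma continuous_act (g : X →L[𝕜] X) : Continuous (act g : P 𝕜 X ι → P 𝕜 X ι) := by
  refine continuous_pi fun i => continuous_pi fun f => ?_
  exact (continuous_apply (f.comp g)).comp (continuous_apply i)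

lemma act_act (g h : X →L[𝕜] X) (φ : P 𝕜 X ι) : act g (act h φ) = act (g * h) φ := by
  funext i f
  rfl

lemma act_one (φ : P 𝕜 X ι) : act (1 : X →L[𝕜] X) φ = φ := by
  funext i f
  rfl

/-- the ball -/
def B (𝕜 : Type*) {X ι : Type*} [RCLike 𝕜] [NormedAddCommGroup X] [NormedSpace 𝕜 X]
    (R : ℝ) : Set (P 𝕜 X ι) :=
  {φ | ∃ v : ι → X, (∀ i, ‖v i‖ ≤ R) ∧ φ = j v}

lemma isCompact_B (hr : ∀ φ : (X →L[𝕜] 𝕜) →L[𝕜] 𝕜, ∃ x : X, ∀ f : X →L[𝕜] 𝕜, φ f = f x)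
    {R : ℝ} (hR : 0 ≤ R) : IsCompact (B 𝕜 R : Set (P 𝕜 X ι)) := by
  set C : Set (P 𝕜 X ι) := {φ | (∀ i f g, φ i (f + g) = φ i f + φ i g) ∧
    (∀ i (c : 𝕜) f, φ i (c • f) = c • φ i f) ∧ ∀ i f, ‖φ i f‖ ≤ R * ‖f‖} with hC
  have hcont : ∀ i (f : X →L[𝕜] 𝕜), Continuous fun φ : P 𝕜 X ι => φ i f := fun i f =>
    (continuous_apply f).comp (continuous_apply i)
  have hclosed : IsClosed C := by
    have h1 : C = (⋂ i, ⋂ f, ⋂ g, {φ : P 𝕜 X ι | φ i (f + g) = φ i f + φ i g}) ∩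
        ((⋂ i, ⋂ c : 𝕜, ⋂ f, {φ : P 𝕜 X ι | φ i (c • f) = c • φ i f}) ∩
        (⋂ i, ⋂ f, {φ : P 𝕜 X ι | ‖φ i f‖ ≤ R * ‖f‖})) := by
      ext φ
      simp [hC]
    rw [h1]
    refine IsClosed.inter ?_ (IsClosed.inter ?_ ?_)
    · exact isClosed_iInter fun i => isClosed_iInter fun f => isClosed_iInter fun g =>
        isClosed_eq (hcont _ _) ((hcont _ _).add (hcont _ _))
    · exact isClosed_iInter fun i => isClosed_iInter fun c => isClosed_iInter fun f =>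
        isClosed_eq (hcont _ _) ((hcont _ _).const_smul c)
    · exact isClosed_iInter fun i => isClosed_iInter fun f =>
        isClosed_le (hcont _ _).norm continuous_const
  have hsub : C ⊆ Set.univ.pi fun _ : ι => Set.univ.pi fun f : X →L[𝕜] 𝕜 =>
      Metric.closedBall (0 : 𝕜) (R * ‖f‖) := by
    rintro φ ⟨_, _, h⟩ i _ f _
    simpa using h i f
  have hcomp : IsCompact C := by
    refine IsCompact.of_isClosed_subset ?_ hclosed hsub
    exact isCompact_univ_pi fun i => isCompact_univ_pi fun f => isCompact_closedBall _ _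
  have hEq : (B 𝕜 R : Set (P 𝕜 X ι)) = C := by
    ext φ
    constructor
    · rintro ⟨v, hv, rfl⟩
      refine ⟨fun i f g => rfl, fun i c f => rfl, fun i f => ?_⟩
      have := f.le_opNorm (v i)
      have h2 := hv i
      have h3 := norm_nonneg f
      show ‖f (v i)‖ ≤ _
      nlinarith
    · rintro ⟨h1, h2, h3⟩
      have h4 : ∀ i, ∃ x : X, ∀ f : X →L[𝕜] 𝕜, φ i f = f x := by
        intro i
        let L : (X →L[𝕜] 𝕜) →ₗ[𝕜] 𝕜 :=
          { toFun := φ i, map_add' := h1 i, map_smul' := h2 i }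
        obtain ⟨x, hx⟩ := hr (L.mkContinuous R (h3 i))
        exact ⟨x, fun f => hx f⟩
      choose v hv using h4
      refine ⟨v, fun i => ?_, ?_⟩
      · refine NormedSpace.norm_le_dual_bound 𝕜 (v i) hR fun f => ?_
        rw [← hv]
        exact h3 i f
      · funext i f
        exact hv i f
  rw [hEq]
  exact hcomp

lemma mem_closedSubmodule {V : Submodule 𝕜 X} (hV : IsClosed (V : Set X)) {x : X}
    (h : ∀ f : X →L[𝕜] 𝕜, (∀ y ∈ V, f y = 0) → f x = 0) : x ∈ V := by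
  by_contra hx
  have : IsClosed (V : Set X) := hV
  have h1 : (V.mkQ x) ≠ 0 := by
    rw [Ne, Submodule.mkQ_apply, Submodule.Quotient.mk_eq_zero]
    exact hx
  obtain ⟨f, _, hf⟩ := exists_dual_vector 𝕜 (V.mkQ x) (norm_ne_zero_iff.2 h1)
  have h2 := h (f.comp V.mkQL) (by
    intro y hy
    show f (V.mkQ y) = 0
    rw [Submodule.mkQ_apply, (Submodule.Quotient.mk_eq_zero V).2 hy, map_zero])
  have h3 : f (V.mkQ x) = 0 := h2
  rw [hf] at h3
  have h4 : ‖V.mkQ x‖ = 0 := by exact_mod_cast h3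
  exact h1 (norm_eq_zero.1 h4)

/-- orbit of a tuple -/
def orb (G : Subgroup (X →L[𝕜] X)ˣ) (x : ι → X) : Set (P 𝕜 X ι) :=
  {φ | ∃ g ∈ G, φ = j fun i => (g : X →L[𝕜] X) (x i)}

/-- The main step, for countable groups. -/
theorem main_countable [Fintype ι]
    (hr : ∀ φ : (X →L[𝕜] 𝕜) →L[𝕜] 𝕜, ∃ x : X, ∀ f : X →L[𝕜] 𝕜, φ f = f x)
    (G : Subgroup (X →L[𝕜] X)ˣ) (hGc : (G : Set (X →L[𝕜] X)ˣ).Countable)
    (hG : (G : Set (X →L[𝕜] X)ˣ).Infinite) {C : ℝ} (hC : ∀ g ∈ G, ‖(g : X →L[𝕜] X)‖ ≤ C)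
    (x : ι → X) {δ : ℝ} (hδ : 0 < δ) :
    ∃ v : ι → X, (j v : P 𝕜 X ι) ∈ closure (orb G x) ∧
      ∀ (n : ℕ) (c : G → Fin n), ∃ k₁ k₂ : G, k₁ ≠ k₂ ∧ c k₁ = c k₂ ∧
        ∀ i, ‖(k₁.1 : X →L[𝕜] X) (v i) - (k₂.1 : X →L[𝕜] X) (v i)‖ ≤ δ := by
  classical
  have hC0 : 0 ≤ C := (norm_nonneg _).trans (hC 1 (one_mem G))
  obtain ⟨R, hR⟩ : ∃ R, ∀ i, ‖x i‖ ≤ R :=
    ⟨∑ i, ‖x i‖, fun i => Finset.single_le_sum (f := fun i => ‖x i‖)
      (fun _ _ => norm_nonneg _) (Finset.mem_univ i)⟩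
  -- the closure of the orbit
  set R' := |R| with hR'
  have hR0 : 0 ≤ R' := abs_nonneg R
  have hRR : ∀ i, ‖x i‖ ≤ R' := fun i => (hR i).trans (le_abs_self R)
  have hB := isCompact_B (ι := ι) hr (mul_nonneg hC0 hR0)
  have horbB : orb G x ⊆ B 𝕜 (C * R') := by
    rintro _ ⟨g, hg, rfl⟩
    refine ⟨_, fun i => ?_, rfl⟩
    have h1 := (g : X →L[𝕜] X).le_opNorm (x i)
    have h2 := hC g hg
    have h3 := hRR i
    have h4 := norm_nonneg (x i)
    nlinarith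
  set M₀ := closure (orb G x) with hM₀
  have hM₀B : M₀ ⊆ B 𝕜 (C * R') := closure_minimal horbB hB.isClosed
  have hM₀c : IsCompact M₀ := hB.of_isClosed_subset isClosed_closure hM₀B
  have hinv₀ : ∀ g ∈ G, ∀ φ ∈ M₀, act (g : X →L[𝕜] X) φ ∈ M₀ := by
    intro g hg φ hφ
    have h1 : MapsTo (act (g : X →L[𝕜] X)) (orb G x) (orb G x) := by
      rintro _ ⟨h, hh, rfl⟩
      exact ⟨g * h, mul_mem hg hh, rfl⟩
    exact h1.closure (continuous_act _) hφ
  -- Zorn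
  set S : Set (Set (P 𝕜 X ι)) := {s | s ⊆ M₀ ∧ s.Nonempty ∧ IsClosed s ∧
    ∀ g ∈ G, ∀ φ ∈ s, act (g : X →L[𝕜] X) φ ∈ s} with hS
  have hM₀S : M₀ ∈ S :=
    ⟨subset_rfl, ⟨_, subset_closure ⟨1, one_mem G, rfl⟩⟩, isClosed_closure, hinv₀⟩
  obtain ⟨M, -, hM, hMmin⟩ := zorn_superset_nonempty S (by
    intro c hc hchain hne
    obtain ⟨s₀, hs₀⟩ := hne
    refine ⟨⋂₀ c, ⟨?_, ?_, ?_, ?_⟩, fun s hs => sInter_subset_of_mem hs⟩
    · exact (sInter_subset_of_mem hs₀).trans (hc hs₀).1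
    · have : Nonempty c := ⟨⟨s₀, hs₀⟩⟩
      refine IsCompact.nonempty_sInter_of_directed_nonempty_isCompact_isClosed ?_ ?_ ?_ ?_
      · exact hchain.directedOn.mono (fun _ _ h => h) |> fun h => by
          intro a ha b hb
          rcases hchain.total ha hb with h | h
          · exact ⟨a, ha, subset_rfl, h⟩
          · exact ⟨b, hb, h, subset_rfl⟩
      · exact fun s hs => (hc hs).2.1
      · exact fun s hs => hM₀c.of_isClosed_subset (hc hs).2.2.1 (hc hs).1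
      · exact fun s hs => (hc hs).2.2.1
    · exact isClosed_sInter fun s hs => (hc hs).2.2.1
    · intro g hg φ hφ
      exact fun s hs => (hc hs).2.2.2 g hg φ (hφ s hs)) M₀ hM₀S
  obtain ⟨hMsub, hMne, hMcl, hMinv⟩ := hM
  have hMc : IsCompact M := hM₀c.of_isClosed_subset hMcl hMsub
  -- the separable subspace
  set V : Submodule 𝕜 X :=
    (Submodule.span 𝕜 {y | ∃ g ∈ G, ∃ i, y = (g : X →L[𝕜] X) (x i)}).topologicalClosure with hV
  have hVcl : IsClosed (V : Set X) := Submodule.isClosed_topologicalClosure _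
  have hVsep : TopologicalSpace.IsSeparable (V : Set X) := by
    have h1 : {y | ∃ g ∈ G, ∃ i, y = (g : X →L[𝕜] X) (x i)} =
        ⋃ g ∈ (G : Set (X →L[𝕜] X)ˣ), Set.range fun i => (g : X →L[𝕜] X) (x i) := by
      ext y
      simp only [mem_ofPred_eq, mem_iUnion, SetLike.mem_coe, mem_range, exists_prop]
      constructor
      · rintro ⟨g, hg, i, rfl⟩; exact ⟨g, hg, i, rfl⟩
      · rintro ⟨g, hg, i, rfl⟩; exact ⟨g, hg, i, rfl⟩
    have h2 : {y | ∃ g ∈ G, ∃ i, y = (g : X →L[𝕜] X) (x i)}.Countable := by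
      rw [h1]
      exact hGc.biUnion fun g _ => Set.countable_range _
    exact (h2.isSeparable.span (R := 𝕜)).closure
  have hMV : ∀ v : ι → X, (j v : P 𝕜 X ι) ∈ M₀ → ∀ i, v i ∈ V := by
    intro v hv i
    refine mem_closedSubmodule hVcl fun f hf => ?_
    have h1 : IsClosed {φ : P 𝕜 X ι | φ i f = 0} :=
      isClosed_eq ((continuous_apply f).comp (continuous_apply i)) continuous_const
    have h2 : orb G x ⊆ {φ : P 𝕜 X ι | φ i f = 0} := by
      rintro _ ⟨g, hg, rfl⟩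
      exact hf _ (Submodule.le_topologicalClosure _ (Submodule.subset_span ⟨g, hg, i, rfl⟩))
    exact closure_minimal h2 h1 hv
  have hVsep' : TopologicalSpace.IsSeparable (Set.univ.pi fun _ : ι => (V : Set X)) :=
    TopologicalSpace.IsSeparable.univ_pi fun _ => hVsep
  obtain ⟨Q, hQc, hQ⟩ := hVsep'
  -- small sets
  set ε := δ / (2 * (C + 1)) with hε
  have hε0 : 0 < ε := by positivity
  let N : (ι → X) → Set (P 𝕜 X ι) := fun d =>
    {φ | ∀ i (f : X →L[𝕜] 𝕜), ‖φ i f - f (d i)‖ ≤ ε * ‖f‖}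
  have hNcl : ∀ d, IsClosed (N d) := by
    intro d
    have h1 : N d = ⋂ i, ⋂ f : X →L[𝕜] 𝕜, {φ : P 𝕜 X ι | ‖φ i f - f (d i)‖ ≤ ε * ‖f‖} := by
      ext φ; simp [N]
    rw [h1]
    have hcont : ∀ i (f : X →L[𝕜] 𝕜), Continuous fun φ : P 𝕜 X ι => φ i f := fun i f =>
      (continuous_apply f).comp (continuous_apply i)
    exact isClosed_iInter fun i => isClosed_iInter fun f =>
      isClosed_le ((hcont i f).sub continuous_const).norm continuous_const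
  have hNj : ∀ d v, (j v : P 𝕜 X ι) ∈ N d → ∀ i, ‖v i - d i‖ ≤ ε := by
    intro d v h i
    refine NormedSpace.norm_le_dual_bound 𝕜 (v i - d i) hε0.le fun f => ?_
    rw [map_sub]
    exact h i f
  -- Baire
  have : CompactSpace M := isCompact_iff_compactSpace.1 hMc
  have : Nonempty M := hMne.to_subtype
  have := hQc.to_subtype
  obtain ⟨⟨d, hdQ⟩, hd⟩ := nonempty_interior_of_iUnion_of_closed
    (X := M) (f := fun d : Q => Subtype.val ⁻¹' N d.1)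
    (fun d => (hNcl d.1).preimage continuous_subtype_val) (by
      rw [eq_univ_iff_forall]
      rintro ⟨φ, hφ⟩
      obtain ⟨v, hv, rfl⟩ := hM₀B (hMsub hφ)
      have h1 : v ∈ closure Q := hQ (fun i _ => hMV v (hMsub hφ) i)
      obtain ⟨d, hd, hvd⟩ := Metric.mem_closure_iff.1 h1 ε hε0
      rw [mem_iUnion]
      refine ⟨⟨d, hd⟩, fun i f => ?_⟩
      have h2 : ‖v i - d i‖ ≤ ε := by
        have h3 : dist (v i) (d i) ≤ dist v d := dist_le_pi_dist v d i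
        rw [dist_eq_norm] at h3
        linarith
      show ‖f (v i) - f (d i)‖ ≤ _
      rw [← map_sub]
      have := f.le_opNorm (v i - d i)
      have := norm_nonneg f
      nlinarith)
  obtain ⟨U, hUo, hUN⟩ : ∃ U : Set (P 𝕜 X ι), IsOpen U ∧
      Subtype.val ⁻¹' U = interior (Subtype.val ⁻¹' N d : Set M) := by
    obtain ⟨U, hU, h⟩ := isOpen_induced_iff.1
      (isOpen_interior (s := (Subtype.val ⁻¹' N d : Set M)))
    exact ⟨U, hU, h⟩
  have hUne : (M ∩ U).Nonempty := by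
    obtain ⟨y, hy⟩ := hd
    refine ⟨y.1, y.2, ?_⟩
    have : y ∈ (Subtype.val ⁻¹' U : Set M) := by rw [hUN]; exact hy
    exact this
  have hUsub : ∀ φ ∈ M, φ ∈ U → φ ∈ N d := by
    intro φ hφ hφU
    have h1 : (⟨φ, hφ⟩ : M) ∈ (Subtype.val ⁻¹' U : Set M) := hφU
    rw [hUN] at h1
    have h2 : (⟨φ, hφ⟩ : M) ∈ (Subtype.val ⁻¹' N d : Set M) := interior_subset h1
    exact h2
  -- minimality: translates of `U` cover `M`
  have hcover : M ⊆ ⋃ g : G, act ((g.1⁻¹ : (X →L[𝕜] X)ˣ) : X →L[𝕜] X) ⁻¹' U := by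
    by_contra hcon
    set M' : Set (P 𝕜 X ι) := M \ ⋃ g : G, act ((g.1⁻¹ : (X →L[𝕜] X)ˣ) : X →L[𝕜] X) ⁻¹' U with hM'
    have h1 : M' ∈ S := by
      refine ⟨sdiff_subset.trans hMsub, ?_, ?_, ?_⟩
      · obtain ⟨y, hy, hy2⟩ := not_subset.1 hcon
        exact ⟨y, hy, hy2⟩
      · exact hMcl.sdiff (isOpen_iUnion fun g => hUo.preimage (continuous_act _))
      · rintro g hg φ ⟨hφ, hφ2⟩
        refine ⟨hMinv g hg φ hφ, fun hcon2 => hφ2 ?_⟩
        obtain ⟨h, hh⟩ := mem_iUnion.1 hcon2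
        refine mem_iUnion.2 ⟨⟨g⁻¹ * h.1, mul_mem (inv_mem hg) h.2⟩, ?_⟩
        show act _ φ ∈ U
        have h3 : ((g⁻¹ * h.1)⁻¹ : (X →L[𝕜] X)ˣ) = h.1⁻¹ * g := by group
        rw [h3, Units.val_mul, ← act_act]
        exact hh
    have h2 := hMmin h1 sdiff_subset
    obtain ⟨y, hy, hyU⟩ := hUne
    have h3 := (h2 hy).2
    apply h3
    refine mem_iUnion.2 ⟨1, ?_⟩
    show act ((1⁻¹ : (X →L[𝕜] X)ˣ) : X →L[𝕜] X) y ∈ U
    rw [inv_one, Units.val_one, act_one]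
    exact hyU
  obtain ⟨t, ht⟩ := hMc.elim_finite_subcover _
    (fun g : G => hUo.preimage (continuous_act _)) hcover
  -- pick a point
  obtain ⟨φ, hφ⟩ := hMne
  obtain ⟨v, hv, rfl⟩ := hM₀B (hMsub hφ)
  refine ⟨v, hMsub hφ, fun n c => ?_⟩
  -- pigeonhole
  have hin : ∀ g : G, ∃ h : t, act ((h.1.1⁻¹ : (X →L[𝕜] X)ˣ) : X →L[𝕜] X)
      (act (g.1 : X →L[𝕜] X) (j v)) ∈ U := by
    intro g
    have h1 := ht (hMinv g.1 g.2 _ hφ)
    simp only [mem_iUnion] at h1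
    obtain ⟨h, hh, h2⟩ := h1
    exact ⟨⟨h, hh⟩, h2⟩
  choose p hp using hin
  have : Infinite G := hG.to_subtype
  obtain ⟨k₁, k₂, hne, heq⟩ := Finite.exists_ne_map_eq_of_infinite fun g : G => (p g, c g)
  have heq1 : p k₁ = p k₂ := congrArg Prod.fst heq
  refine ⟨k₁, k₂, hne, congrArg Prod.snd heq, fun i => ?_⟩
  have key : ∀ k : G, ‖((p k).1.1⁻¹ : (X →L[𝕜] X)ˣ).val ((k.1 : X →L[𝕜] X) (v i)) - d i‖ ≤ ε := by
    intro k
    have h1 : act (((p k).1.1⁻¹ : (X →L[𝕜] X)ˣ) : X →L[𝕜] X)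
        (act (k.1 : X →L[𝕜] X) (j v)) ∈ M :=
      hMinv _ (inv_mem (p k).1.2) _ (hMinv _ k.2 _ hφ)
    exact hNj d _ (hUsub _ h1 (hp k)) i
  have h1 := key k₁
  have h2 := key k₂
  rw [heq1] at h1
  set g := (p k₂).1 with hg
  have h3 : ‖(g.1⁻¹ : (X →L[𝕜] X)ˣ).val
      ((k₁.1 : X →L[𝕜] X) (v i) - (k₂.1 : X →L[𝕜] X) (v i))‖ ≤ 2 * ε := by
    rw [map_sub]
    calc _ = ‖((g.1⁻¹ : (X →L[𝕜] X)ˣ).val ((k₁.1 : X →L[𝕜] X) (v i)) - d i) -
          ((g.1⁻¹ : (X →L[𝕜] X)ˣ).val ((k₂.1 : X →L[𝕜] X) (v i)) - d i)‖ := by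
            congr 1; abel
      _ ≤ ε + ε := (norm_sub_le _ _).trans (add_le_add h1 h2)
      _ = 2 * ε := by ring
  have h4 : (k₁.1 : X →L[𝕜] X) (v i) - (k₂.1 : X →L[𝕜] X) (v i) =
      (g.1 : X →L[𝕜] X) ((g.1⁻¹ : (X →L[𝕜] X)ˣ).val
        ((k₁.1 : X →L[𝕜] X) (v i) - (k₂.1 : X →L[𝕜] X) (v i))) := by
    have h5 : (g.1 : X →L[𝕜] X) * ((g.1⁻¹ : (X →L[𝕜] X)ˣ) : X →L[𝕜] X) = 1 := Units.mul_inv _
    exact (congrArg (fun T : X →L[𝕜] X =>
      T ((k₁.1 : X →L[𝕜] X) (v i) - (k₂.1 : X →L[𝕜] X) (v i))) h5).symm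
  rw [h4]
  have h6 := (g.1 : X →L[𝕜] X).le_opNorm ((g.1⁻¹ : (X →L[𝕜] X)ˣ).val
        ((k₁.1 : X →L[𝕜] X) (v i) - (k₂.1 : X →L[𝕜] X) (v i)))
  have h7 := hC g.1 g.2
  have h8 : C * (2 * ε) ≤ δ := by
    have : (C + 1) * (2 * ε) = δ := by rw [hε]; field_simp
    nlinarith
  have h9 : ‖(g.1 : X →L[𝕜] X)‖ * ‖(g.1⁻¹ : (X →L[𝕜] X)ˣ).val
        ((k₁.1 : X →L[𝕜] X) (v i) - (k₂.1 : X →L[𝕜] X) (v i))‖ ≤ C * (2 * ε) :=
    mul_le_mul h7 h3 (norm_nonneg _) hC0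
  linarith

end Pool.Agent.Helper509.SD
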